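import Mathlib

set_option autoImplicit false

namespace Pool.Agent.Results.MP_9eb66c_ag.No

open Polynomial

/-- The Artin cone `A^r_{n,2d}`: forms `p` of degree `2d` such that `p q` is a sum of squares for
some nonzero sum-of-squares form `q` of degree `2r`. -/
def Artin (n d r : ℕ) : Set (MvPolynomial (Fin n) ℝ) :=
  {p | p.IsHomogeneous (2 * d) ∧ ∃ q : MvPolynomial (Fin n) ℝ,
    q ≠ 0 ∧ q.IsHomogeneous (2 * r) ∧ IsSumSq q ∧ IsSumSq (p * q)}

def FR (R : Type*) [CommRing R] : Prop := ∀ a b : R, IsSumSq b → a * a + b = 0 → a = 0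

section
variable {R S : Type*} [CommRing R] [CommRing S]

lemma smap (f : R →+* S) {s : R} (hs : IsSumSq s) : IsSumSq (f s) := by
  induction hs with
  | zero => simp
  | sq_add a _ ih => rw [map_add, map_mul]; exact ih.sq_add _

variable [IsDomain R]

lemma lc (h : FR R) {s : R[X]} (hs : IsSumSq s) : IsSumSq s.leadingCoeff := by
  induction hs with
  | zero => simp
  | @sq_add a s _ ih =>
    rcases lt_trichotomy (a * a).degree s.degree with h1 | h1 | h1
    · rwa [leadingCoeff_add_of_degree_lt h1]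
    · by_cases h2 : (a * a).leadingCoeff + s.leadingCoeff = 0
      · rw [leadingCoeff_mul] at h2
        rwa [leadingCoeff_eq_zero.1 (h _ _ ih h2), mul_zero, zero_add]
      · rw [leadingCoeff_add_of_degree_eq h1 h2, leadingCoeff_mul]
        exact ih.sq_add _
    · rw [leadingCoeff_add_of_degree_lt' h1, leadingCoeff_mul]
      exact IsSumSq.mul_self _

lemma deg (h : FR R) (a : R[X]) {s : R[X]} (hs : IsSumSq s) :
    (a * a + s).degree = max (a * a).degree s.degree := by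
  by_cases h2 : (a * a).leadingCoeff + s.leadingCoeff = 0
  · rw [leadingCoeff_mul] at h2
    simp [leadingCoeff_eq_zero.1 (h _ _ (lc h hs) h2)]
  · exact degree_add_eq_of_leadingCoeff_add_ne_zero h2

lemma FR.poly (h : FR R) : FR R[X] := fun a b hb h0 => by
  have := deg h a hb
  rw [h0, degree_zero, eq_comm, max_eq_bot, degree_eq_bot] at this
  exact mul_self_eq_zero.1 this.1

lemma half {a : R[X]} {k : ℕ} (h : (a * a).degree ≤ (2 * k : ℕ)) : a.natDegree ≤ k := by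
  rw [← natDegree_le_iff_degree_le, ← sq, natDegree_pow] at h
  omega

lemma divT (h : FR R) {s : R[X]} (hs : IsSumSq s) (h0 : s.eval 0 = 0) :
    ∃ g, IsSumSq g ∧ s = X ^ 2 * g := by
  induction hs with
  | zero => exact ⟨0, .zero, by simp⟩
  | @sq_add a s hs ih =>
    rw [eval_add, eval_mul] at h0
    have h1 := h _ _ (smap (evalRingHom 0) hs) h0
    obtain ⟨g, hg, rfl⟩ := ih (by simpa [h1] using h0)
    obtain ⟨b, rfl⟩ : X ∣ a := X_dvd_iff.2 (by rwa [coeff_zero_eq_eval_zero])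
    exact ⟨b * b + g, hg.sq_add _, by ring⟩

lemma strip (h : FR R) {g : R[X]} (hs : IsSumSq (X ^ 2 * g)) : IsSumSq g := by
  obtain ⟨g', hg, e⟩ := divT h hs (by simp)
  rwa [mul_left_cancel₀ (pow_ne_zero 2 X_ne_zero) e]

end

lemma FR_real : FR ℝ := fun a b hb h => by nlinarith [hb.nonneg]

lemma mot {s : ℝ[X][X]} (hs : IsSumSq s) (h1 : s.degree ≤ (2 * 2 : ℕ))
    (h2 : (s.coeff 0).degree ≤ (2 * 0 : ℕ)) (h3 : (s.coeff 4).degree ≤ (2 * 1 : ℕ))
    (h4 : (s.coeff 4).eval 0 = 0) : 0 ≤ (s.coeff 2).eval 1 + (s.coeff 2).eval (-1) := by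
  induction hs with
  | zero => simp
  | @sq_add a s hs ih =>
    rw [deg FR_real.poly a hs, max_le_iff] at h1
    have a3 : a.coeff 3 = 0 := coeff_eq_zero_of_natDegree_lt ((half h1.1).trans_lt (by norm_num))
    have a4 : a.coeff 4 = 0 := coeff_eq_zero_of_natDegree_lt ((half h1.1).trans_lt (by norm_num))
    have c0 : (a * a).coeff 0 = a.coeff 0 * a.coeff 0 := mul_coeff_zero _ _
    have c2 : (a * a).coeff 2 = 2 * (a.coeff 0 * a.coeff 2) + a.coeff 1 * a.coeff 1 := by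
      simp [coeff_mul, Finset.Nat.sum_antidiagonal_eq_sum_range_succ_mk, Finset.sum_range_succ]
      ring
    have c4 : (a * a).coeff 4 = a.coeff 2 * a.coeff 2 := by
      simp [coeff_mul, Finset.Nat.sum_antidiagonal_eq_sum_range_succ_mk, Finset.sum_range_succ,
        a3, a4]
    have s0 : IsSumSq (s.coeff 0) := smap constantCoeff hs
    have s4 : IsSumSq (s.coeff 4) := by
      rcases (natDegree_le_iff_degree_le.2 h1.2).eq_or_lt with h | h
      · have := lc FR_real.poly hs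
        rwa [leadingCoeff, h] at this
      · rw [coeff_eq_zero_of_natDegree_lt h]; exact .zero
    rw [coeff_add, c0, deg FR_real _ s0, max_le_iff] at h2
    rw [coeff_add, c4] at h3 h4
    rw [deg FR_real _ s4, max_le_iff] at h3
    rw [eval_add, eval_mul] at h4
    have h5 := FR_real _ _ (smap (evalRingHom 0) s4) h4
    have h6 := ih h1.2 h2.2 h3.2 (by simpa [h5] using h4)
    have e0 := eq_C_of_natDegree_le_zero (half h2.1)
    have e2 := eq_X_add_C_of_natDegree_le_one (half h3.1)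
    rw [← coeff_zero_eq_eval_zero] at h5
    rw [h5] at e2
    rw [coeff_add, c2, e0, e2]
    simp only [eval_add, eval_mul, eval_C, eval_X, eval_ofNat]
    nlinarith [mul_self_nonneg ((a.coeff 1).eval 1), mul_self_nonneg ((a.coeff 1).eval (-1))]

noncomputable def mm : ℝ[X][X] := C (X ^ 2) * X ^ 4 + C (X ^ 4 - 3 * X ^ 2) * X ^ 2 + 1

lemma mot2 {c : ℝ} (h : IsSumSq (mm * C (C c))) : c ≤ 0 := by
  have := mot h ?_ ?_ ?_ ?_
  · simp [mm, coeff_mul_C, coeff_one, -map_pow, -map_sub] at this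
    linarith
  · rw [← natDegree_le_iff_degree_le, mm]; compute_degree
  · simp [mm, coeff_one, degree_C_le, -map_pow, -map_sub]
  · simp only [mm, coeff_mul_C, coeff_add, coeff_C_mul, coeff_X_pow, coeff_one]
    rw [← natDegree_le_iff_degree_le]
    simp only [↓reduceIte, Nat.reduceEqDiff, mul_one, mul_zero, add_zero]
    compute_degree
  · simp [mm, coeff_mul_C, coeff_one, -map_pow, -map_sub]

def mz {R : Type*} [CommRing R] (x y z : R) : R :=
  x ^ 4 * y ^ 2 + x ^ 2 * y ^ 4 + z ^ 6 - 3 * x ^ 2 * y ^ 2 * z ^ 2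

lemma mz_T : (mz (X * C X) (X * C (C X)) X : ℝ[X][X][X]) = X ^ 6 * C mm := by
  simp only [mz, mm, map_add, map_mul, map_pow, map_sub, map_one, map_ofNat]
  ring

lemma mz_C {a b c : ℝ} (h : mz a b c = 0) :
    (mz (C (C (C a))) (C (C (C b))) (C (C (C c))) : ℝ[X][X][X]) = 0 := by
  have := congrArg (fun t => (C (C (C t)) : ℝ[X][X][X])) h
  simpa only [mz, map_add, map_mul, map_pow, map_sub, map_zero, map_ofNat] using this

open MvPolynomial in
lemma key {q : MvPolynomial (Fin 6) ℝ}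
    (h : IsSumSq ((mz (X 0) (X 1) (X 2) + mz (X 3) (X 4) (X 5)) * q)) (s : Fin 6 → ℝ[X][X][X])
    (w : Fin 6 → ℝ) (h1 : ∀ i, (s i).eval 0 = Polynomial.C (Polynomial.C (w i)))
    (h2 : mz (s 0) (s 1) (s 2) + mz (s 3) (s 4) (s 5) = Polynomial.X ^ 6 * Polynomial.C mm) :
    eval w q ≤ 0 := by
  have h3 := smap (S := ℝ[X][X][X]) (MvPolynomial.aeval (R := ℝ) s).toRingHom h
  have e : (MvPolynomial.aeval (R := ℝ) s).toRingHom ((mz (X 0) (X 1) (X 2) + mz (X 3) (X 4) (X 5)) * q) =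
      Polynomial.X ^ 2 * (Polynomial.X ^ 2 * (Polynomial.X ^ 2 *
        (Polynomial.C mm * MvPolynomial.aeval s q))) := by
    have : MvPolynomial.aeval s (mz (X 0) (X 1) (X 2) + mz (X 3) (X 4) (X 5) : MvPolynomial (Fin 6) ℝ) =
        mz (s 0) (s 1) (s 2) + mz (s 3) (s 4) (s 5) := by simp [mz, map_ofNat]
    rw [AlgHom.toRingHom_eq_coe, RingHom.coe_coe, map_mul, this, h2]
    ring
  have hF := FR_real.poly.poly
  rw [e] at h3
  have h4 := smap (evalRingHom 0) (strip hF (strip hF (strip hF h3)))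
  have e2 : ∀ q : MvPolynomial (Fin 6) ℝ,
      (MvPolynomial.aeval s q).eval 0 = Polynomial.C (Polynomial.C (eval w q)) := by
    intro q
    induction q using MvPolynomial.induction_on with
    | C a => simp
    | add p q hp hq => simp [hp, hq]
    | mul_X p i hp => simp [hp, h1]
  rw [coe_evalRingHom, Polynomial.eval_mul, Polynomial.eval_C, e2] at h4
  exact mot2 h4

open MvPolynomial in
lemma quad {q : MvPolynomial (Fin 6) ℝ} (h : q.IsHomogeneous 2) :
    ∃ B : (Fin 6 → ℝ) →ₗ[ℝ] (Fin 6 → ℝ) →ₗ[ℝ] ℝ, ∀ x, eval x q = B x x := by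
  have hl : ∀ p ∈ homogeneousSubmodule (Fin 6) ℝ 1, ∃ L : (Fin 6 → ℝ) →ₗ[ℝ] ℝ,
      ∀ x, eval x p = L x := by
    intro p hp
    rw [homogeneousSubmodule_one_eq_span_X] at hp
    induction hp using Submodule.span_induction with
    | mem p h => obtain ⟨i, rfl⟩ := h; exact ⟨LinearMap.proj i, by simp⟩
    | zero => exact ⟨0, by simp⟩
    | add x y _ _ hx hy =>
      obtain ⟨L, hL⟩ := hx; obtain ⟨L', hL'⟩ := hy
      exact ⟨L + L', by simp [hL, hL']⟩
    | smul a x _ hx => obtain ⟨L, hL⟩ := hx; exact ⟨a • L, by simp [hL]⟩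
  rw [← mem_homogeneousSubmodule, ← homogeneousSubmodule_one_pow, sq] at h
  refine Submodule.mul_induction_on h (fun a ha b hb => ?_) fun a b ⟨B, hB⟩ ⟨B', hB'⟩ =>
    ⟨B + B', by simp [hB, hB']⟩
  obtain ⟨L, hL⟩ := hl a ha
  obtain ⟨L', hL'⟩ := hl b hb
  exact ⟨L.smulRight L', by simp [hL, hL']⟩

open MvPolynomial in
lemma not_mem {q : MvPolynomial (Fin 6) ℝ} (hq : q.IsHomogeneous 2) (hs : IsSumSq q)
    (h : IsSumSq ((mz (X 0) (X 1) (X 2) + mz (X 3) (X 4) (X 5)) * q)) : q = 0 := by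
  obtain ⟨B, hB⟩ := quad hq
  have h0 : ∀ x, 0 ≤ B x x := fun x => hB x ▸ (smap (eval x) hs).nonneg
  have h1 : ∀ v, eval v q ≤ 0 → ∀ w, B v w + B w v = 0 := by
    intro v hv w
    by_contra hc
    have h2 := h0 (w + (-(B w w + 1) / (B v w + B w v)) • v)
    have h3 : B v v = 0 := le_antisymm (hB v ▸ hv) (h0 v)
    simp only [map_add, map_smul, LinearMap.add_apply, LinearMap.smul_apply, smul_eq_mul,
      h3] at h2
    have h4 := div_mul_cancel₀ (-(B w w + 1)) hc
    nlinarith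
  have k1 : ∀ a b c : ℝ, mz a b c = 0 → eval ![0, 0, 0, a, b, c] q ≤ 0 := fun a b c h5 =>
    key h ![.X * .C .X, .X * .C (.C .X), .X, .C (.C (.C a)), .C (.C (.C b)), .C (.C (.C c))] _
      (fun i => by fin_cases i <;> simp) ((congrArg₂ (· + ·) mz_T (mz_C h5)).trans (add_zero _))
  have k2 : ∀ a b c : ℝ, mz a b c = 0 → eval ![a, b, c, 0, 0, 0] q ≤ 0 := fun a b c h5 =>
    key h ![.C (.C (.C a)), .C (.C (.C b)), .C (.C (.C c)), .X * .C .X, .X * .C (.C .X), .X] _
      (fun i => by fin_cases i <;> simp) ((congrArg₂ (· + ·) (mz_C h5) mz_T).trans (zero_add _))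
  refine MvPolynomial.funext fun x => ?_
  have e : x = (x 0 - x 2) • ![1, 0, 0, 0, 0, 0] + (x 1 - x 2) • ![0, 1, 0, 0, 0, 0] +
      x 2 • ![1, 1, 1, 0, 0, 0] + (x 3 - x 5) • ![0, 0, 0, 1, 0, 0] +
      (x 4 - x 5) • ![0, 0, 0, 0, 1, 0] + x 5 • ![0, 0, 0, 1, 1, 1] := by
    funext i; fin_cases i <;> simp
  have h2 : ∀ w, B x w + B w x = 0 := by
    intro w
    have a1 := h1 _ (k2 1 0 0 (by simp [mz])) w
    have a2 := h1 _ (k2 0 1 0 (by simp [mz])) w
    have a3 := h1 _ (k2 1 1 1 (by norm_num [mz])) w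
    have a4 := h1 _ (k1 1 0 0 (by simp [mz])) w
    have a5 := h1 _ (k1 0 1 0 (by simp [mz])) w
    have a6 := h1 _ (k1 1 1 1 (by norm_num [mz])) w
    rw [e]
    simp only [map_add, map_smul, LinearMap.add_apply, LinearMap.smul_apply, smul_eq_mul]
    linear_combination (x 0 - x 2) * a1 + (x 1 - x 2) * a2 + x 2 * a3 + (x 3 - x 5) * a4 +
      (x 4 - x 5) * a5 + x 5 * a6
  rw [hB, map_zero]
  linarith [h2 x]

open MvPolynomial in
lemma mem (i j k : Fin 6) : mz (X i) (X j) (X k) ∈ Artin 6 3 1 := by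
  have hX := fun i : Fin 6 => isHomogeneous_X ℝ i
  refine ⟨?_, X i * X i + (X j * X j + X k * X k), fun h => ?_,
    ((hX i).mul (hX i)).add (((hX j).mul (hX j)).add ((hX k).mul (hX k))),
    ((IsSumSq.mul_self _).sq_add _).sq_add _, ?_⟩
  · exact (((((hX i).pow 4).mul ((hX j).pow 2)).add (((hX i).pow 2).mul ((hX j).pow 4))).add
      ((hX k).pow 6)).sub (((((isHomogeneous_C (Fin 6) (3 : ℝ)).mul ((hX i).pow 2))).mul
        ((hX j).pow 2)).mul ((hX k).pow 2))
  · have := congrArg (MvPolynomial.eval fun _ => (1 : ℝ)) h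
    norm_num at this
  · have h2 : (MvPolynomial.C (1 / 2) * 2 : MvPolynomial (Fin 6) ℝ) = 1 := by
      rw [← map_ofNat MvPolynomial.C 2, ← map_mul]; norm_num
    set u : MvPolynomial (Fin 6) ℝ := MvPolynomial.C (1 / 2)
    set x : MvPolynomial (Fin 6) ℝ := X i
    set y : MvPolynomial (Fin 6) ℝ := X j
    set z : MvPolynomial (Fin 6) ℝ := X k
    have e : mz x y z * (x * x + (y * y + z * z)) = (x ^ 2 * y * z - y * z ^ 3) ^ 2 +
        (x * y ^ 2 * z - x * z ^ 3) ^ 2 + (x ^ 2 * y ^ 2 - z ^ 4) ^ 2 +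
        (u * (x * y ^ 3 - x ^ 3 * y)) ^ 2 + (u * (x * y ^ 3 + x ^ 3 * y - 2 * x * y * z ^ 2)) ^ 2 +
        (u * (x * y ^ 3 + x ^ 3 * y - 2 * x * y * z ^ 2)) ^ 2 +
        (u * (x * y ^ 3 + x ^ 3 * y - 2 * x * y * z ^ 2)) ^ 2 := by
      rw [mz]
      linear_combination (-(u * 2 + 1) * (x ^ 2 * y ^ 6 + x ^ 6 * y ^ 2 + x ^ 4 * y ^ 4 +
        3 * x ^ 2 * y ^ 2 * z ^ 4 - 3 * x ^ 2 * y ^ 4 * z ^ 2 - 3 * x ^ 4 * y ^ 2 * z ^ 2)) * h2
    have hsq : ∀ a : MvPolynomial (Fin 6) ℝ, IsSumSq (a ^ 2) := fun a => sq a ▸ .mul_self a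
    rw [e]
    exact ((((((hsq _).add (hsq _)).add (hsq _)).add (hsq _)).add (hsq _)).add (hsq _)).add (hsq _)

theorem result : ¬ Convex ℝ (Artin 6 3 1) := by
  intro h
  obtain ⟨-, q, h0, h1, h2, h3⟩ := h (mem 0 1 2) (mem 3 4 5) (a := 1 / 2) (b := 1 / 2)
    (by norm_num) (by norm_num) (by norm_num)
  refine h0 (not_mem h1 h2 ?_)
  have := h3.add h3
  rwa [← add_mul, ← smul_add, ← add_smul, add_halves, one_smul] at this

end Pool.Agent.Results.MP_9eb66c_ag.No
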